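import Pool.Agent.Lib.H8.CeAlg

/-!
MP_aec1d5_lc: one-generated c.e. semilattices with two decreasing unary operations fail ACC,
while their isomorphism relation is not complete for the third existential level.
-/

namespace Pool.Agent.Results.MP_aec1d5_lc.Yes

open Pool.Agent.Lib.H8 Arith CList CeAlg

/-- Terms in one generator `x`, two unary symbols `f`, `g` and one binary symbol `m`. -/
inductive Tm
  | x
  | f (s : Tm)
  | g (s : Tm)
  | m (s t : Tm)

/-- The coding of terms. -/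
def enc : Tm → ℕ
  | .x => 0
  | .f s => 3 * enc s + 1
  | .g s => 3 * enc s + 2
  | .m s t => 3 * Nat.pair (enc s) (enc t) + 3

/-- The least congruence containing the pairs coded in `W e` and the instances of the laws. -/
inductive Th (e : ℕ) : Tm → Tm → Prop
  | base {s t} : Nat.pair (enc s) (enc t) ∈ W e → Th e s t
  | assoc (s t u) : Th e (.m (.m s t) u) (.m s (.m t u))
  | comm (s t) : Th e (.m s t) (.m t s)
  | idem (s) : Th e (.m s s) s
  | fle (s) : Th e (.m (.f s) s) (.f s)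
  | gle (s) : Th e (.m (.g s) s) (.g s)
  | refl (s) : Th e s s
  | symm {s t} : Th e s t → Th e t s
  | trans {s t u} : Th e s t → Th e t u → Th e s u
  | f {s t} : Th e s t → Th e (.f s) (.f t)
  | g {s t} : Th e s t → Th e (.g s) (.g t)
  | m {s t s' t'} : Th e s t → Th e s' t' → Th e (.m s s') (.m t t')

/-- The class of a term in the algebra presented by `e`. -/
def cl (e : ℕ) (s : Tm) : Quot (Th e) := Quot.mk _ s

/-- The algebras presented by `e` and `i` are isomorphic. -/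
def Iso (e i : ℕ) : Prop :=
  ∃ φ : Quot (Th e) ≃ Quot (Th i), ∀ s t s' t', φ (cl e s) = cl i t → φ (cl e s') = cl i t' →
    φ (cl e (.f s)) = cl i (.f t) ∧ φ (cl e (.g s)) = cl i (.g t) ∧
      φ (cl e (.m s s')) = cl i (.m t t')

/-- `C` is a congruence of the algebra presented by `e`. -/
def IsCon (e : ℕ) (C : Setoid (Quot (Th e))) : Prop :=
  ∀ s t s' t', C (cl e s) (cl e t) → C (cl e s') (cl e t') → C (cl e (.f s)) (cl e (.f t)) ∧
    C (cl e (.g s)) (cl e (.g t)) ∧ C (cl e (.m s s')) (cl e (.m t t'))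

theorem cl_eq {e : ℕ} {s t : Tm} : cl e s = cl e t ↔ Th e s t :=
  Quot.eq.trans (Equivalence.eqvGen_iff ⟨.refl, .symm, .trans⟩)

theorem le_x (e : ℕ) : ∀ s, Th e (.m s .x) s
  | .x => .idem _
  | .f s => .trans (.m (.symm (.fle s)) (.refl _)) (.trans (.assoc _ _ _)
      (.trans (.m (.refl _) (le_x e s)) (.fle s)))
  | .g s => .trans (.m (.symm (.gle s)) (.refl _)) (.trans (.assoc _ _ _)
      (.trans (.m (.refl _) (le_x e s)) (.gle s)))
  | .m _ t => .trans (.assoc _ _ _) (.m (.refl _) (le_x e t))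

theorem iso_iff {e i : ℕ} : Iso e i ↔ ∀ s t, Th e s t ↔ Th i s t := by
  constructor
  · rintro ⟨φ, h⟩ s t
    obtain ⟨u, hu⟩ : ∃ u, φ (cl e .x) = cl i u := (Quot.exists_rep _).imp fun _ => Eq.symm
    obtain ⟨v, hv⟩ : ∃ v, cl e v = φ.symm (cl i .x) := Quot.exists_rep _
    rw [Equiv.eq_symm_apply] at hv
    have a := (h _ _ _ _ hv hu).2.2
    rw [cl_eq.2 (le_x e v), hv, cl_eq.2 ((Th.comm _ _).trans (le_x i u)), ← hu] at a
    have k : ∀ s, φ (cl e s) = cl i s := fun s => by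
      induction s with
      | x => exact a.symm
      | f s ih => exact (h _ _ _ _ ih ih).1
      | g s ih => exact (h _ _ _ _ ih ih).2.1
      | m s t i1 i2 => exact (h _ _ _ _ i1 i2).2.2
    rw [← cl_eq, ← cl_eq, ← k, ← k, φ.apply_eq_iff_eq]
  · intro h
    refine ⟨Quot.congr (Equiv.refl _) h, fun s t s' t' a b => ?_⟩
    have a := cl_eq.1 (show cl i s = cl i t from a)
    have b := cl_eq.1 (show cl i s' = cl i t' from b)
    exact ⟨cl_eq.2 a.f, cl_eq.2 a.g, cl_eq.2 (a.m b)⟩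

theorem enc_bij : Function.Bijective enc := by
  refine ⟨fun s => ?_, fun n => ?_⟩
  · induction s with
    | x => intro t; cases t <;> simp [enc]
    | f s ih => intro t; cases t <;> simp [enc] <;> first | omega | exact @ih _
    | g s ih => intro t; cases t <;> simp [enc] <;> first | omega | exact @ih _
    | m s s' i1 i2 =>
      intro t
      cases t <;> simp [enc] <;> first | omega | exact fun a b => ⟨i1 a, i2 b⟩
  · induction n using Nat.strong_induction_on with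
    | _ n ih =>
      obtain rfl | ⟨k, rfl | rfl | rfl⟩ :
        n = 0 ∨ ∃ k, n = 3 * k + 1 ∨ n = 3 * k + 2 ∨ n = 3 * k + 3 := by
          rcases n with _ | n
          · exact Or.inl rfl
          · exact Or.inr ⟨n / 3, by omega⟩
      · exact ⟨.x, rfl⟩
      · obtain ⟨s, rfl⟩ := ih k (by omega)
        exact ⟨.f s, rfl⟩
      · obtain ⟨s, rfl⟩ := ih k (by omega)
        exact ⟨.g s, rfl⟩
      · obtain ⟨s, hs⟩ := ih k.unpair.1 (by have := k.unpair_left_le; omega)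
        obtain ⟨t, ht⟩ := ih k.unpair.2 (by have := k.unpair_right_le; omega)
        exact ⟨.m s t, by simp [enc, hs, ht]⟩

def M (a b : ℕ) : ℕ := 3 * Nat.pair a b + 3

def Ax (e : ℕ) (p : ℕ × ℕ) : Prop := Nat.pair p.1 p.2 ∈ W e ∨ ∃ q : ℕ × ℕ × ℕ,
  p = (M (M q.1 q.2.1) q.2.2, M q.1 (M q.2.1 q.2.2)) ∨ p = (M q.1 q.2.1, M q.2.1 q.1) ∨
    p = (M q.1 q.1, q.1) ∨ p = (M (3 * q.1 + 1) q.1, 3 * q.1 + 1) ∨
    p = (M (3 * q.1 + 2) q.1, 3 * q.1 + 2) ∨ p = (q.1, q.1)

def Ru (p q r : ℕ × ℕ) : Prop := r = (p.2, p.1) ∨ p.2 = q.1 ∧ r = (p.1, q.2) ∨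
  r = (3 * p.1 + 1, 3 * p.2 + 1) ∨ r = (3 * p.1 + 2, 3 * p.2 + 2) ∨ r = (M p.1 q.1, M p.2 q.2)

theorem th_iff {e : ℕ} {s t : Tm} : Th e s t ↔ Cl (Ax e) Ru (enc s, enc t) := by
  constructor
  · intro h
    induction h with
    | base h => exact .ax (Or.inl h)
    | assoc s t u => exact .ax (Or.inr ⟨(enc s, enc t, enc u), Or.inl rfl⟩)
    | comm s t => exact .ax (Or.inr ⟨(enc s, enc t, 0), Or.inr (Or.inl rfl)⟩)
    | idem s => exact .ax (Or.inr ⟨(enc s, 0, 0), by simp [M, enc]⟩)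
    | fle s => exact .ax (Or.inr ⟨(enc s, 0, 0), by simp [M, enc]⟩)
    | gle s => exact .ax (Or.inr ⟨(enc s, 0, 0), by simp [M, enc]⟩)
    | refl s => exact .ax (Or.inr ⟨(enc s, 0, 0), by simp⟩)
    | symm _ i => exact .st i i (Or.inl rfl)
    | trans _ _ i j => exact .st i j (by simp [Ru])
    | f _ i => exact .st i i (by simp [Ru, enc])
    | g _ i => exact .st i i (by simp [Ru, enc])
    | m _ _ i j => exact .st i j (by simp [Ru, enc, M])
  · have : ∀ p, Cl (Ax e) Ru p → ∃ s t, p = (enc s, enc t) ∧ Th e s t := fun p h => by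
      induction h with
      | @ax p h =>
        rcases h with h | ⟨⟨a, b, c⟩, h⟩
        · obtain ⟨s, hs⟩ := enc_bij.2 p.1
          obtain ⟨t, ht⟩ := enc_bij.2 p.2
          exact ⟨s, t, by rw [hs, ht], .base (by rwa [hs, ht])⟩
        · obtain ⟨a, rfl⟩ := enc_bij.2 a
          obtain ⟨b, rfl⟩ := enc_bij.2 b
          obtain ⟨c, rfl⟩ := enc_bij.2 c
          rcases h with rfl | rfl | rfl | rfl | rfl | rfl
          exacts [⟨_, _, rfl, .assoc a b c⟩, ⟨_, _, rfl, .comm a b⟩, ⟨_, _, rfl, .idem a⟩,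
            ⟨_, _, rfl, .fle a⟩, ⟨_, _, rfl, .gle a⟩, ⟨_, _, rfl, .refl a⟩]
      | st _ _ r i j =>
        obtain ⟨s, t, rfl, i⟩ := i
        obtain ⟨s', t', rfl, j⟩ := j
        rcases r with rfl | ⟨r, rfl⟩ | rfl | rfl | rfl
        exacts [⟨_, _, rfl, i.symm⟩, ⟨_, _, rfl, i.trans (enc_bij.1 r ▸ j)⟩, ⟨_, _, rfl, i.f⟩,
          ⟨_, _, rfl, i.g⟩, ⟨_, _, rfl, i.m j⟩]
    intro h
    obtain ⟨s', t', k, h⟩ := this _ h
    rwa [enc_bij.1 (Prod.mk.inj k).1, enc_bij.1 (Prod.mk.inj k).2]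

theorem lin {α : Type} [Primcodable α] {a : α → ℕ} (h : Computable a) (c : ℕ) :
    Computable fun x => 3 * a x + c :=
  Primrec.nat_add.to_comp.comp (Primrec.nat_mul.to_comp.comp (Computable.const 3) h)
    (Computable.const c)

theorem cM {α : Type} [Primcodable α] {a b : α → ℕ} (h : Computable a) (k : Computable b) :
    Computable fun x => M (a x) (b x) := lin (Primrec₂.natPair.to_comp.comp h k) 3

theorem th_sig : Sig 1 (ℕ × ℕ × ℕ) fun q => Cl (Ax q.1) Ru q.2 := by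
  refine cl_sig ((w_sig Computable.fst (Primrec₂.natPair.to_comp.comp
    (Computable.fst.comp Computable.snd) (Computable.snd.comp Computable.snd))).or
      (Sig.exd (A := fun z : (ℕ × ℕ × ℕ) × ℕ × ℕ × ℕ =>
        z.1.2 = (M (M z.2.1 z.2.2.1) z.2.2.2, M z.2.1 (M z.2.2.1 z.2.2.2)) ∨
        z.1.2 = (M z.2.1 z.2.2.1, M z.2.2.1 z.2.1) ∨ z.1.2 = (M z.2.1 z.2.1, z.2.1) ∨
        z.1.2 = (M (3 * z.2.1 + 1) z.2.1, 3 * z.2.1 + 1) ∨
        z.1.2 = (M (3 * z.2.1 + 2) z.2.1, 3 * z.2.1 + 2) ∨ z.1.2 = (z.2.1, z.2.1)) (cs ?_))) ?_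
  · have p : Computable fun z : (ℕ × ℕ × ℕ) × ℕ × ℕ × ℕ => z.1.2 :=
      Computable.snd.comp Computable.fst
    have a : Computable fun z : (ℕ × ℕ × ℕ) × ℕ × ℕ × ℕ => z.2.1 :=
      Computable.fst.comp Computable.snd
    have b : Computable fun z : (ℕ × ℕ × ℕ) × ℕ × ℕ × ℕ => z.2.2.1 :=
      Computable.fst.comp (Computable.snd.comp Computable.snd)
    have c : Computable fun z : (ℕ × ℕ × ℕ) × ℕ × ℕ × ℕ => z.2.2.2 :=
      Computable.snd.comp (Computable.snd.comp Computable.snd)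
    exact cor (ceq p ((cM (cM a b) c).pair (cM a (cM b c)))) (cor (ceq p ((cM a b).pair (cM b a)))
      (cor (ceq p ((cM a a).pair a)) (cor (ceq p ((cM (lin a 1) a).pair (lin a 1)))
        (cor (ceq p ((cM (lin a 2) a).pair (lin a 2))) (ceq p (a.pair a))))))
  · have r : Computable fun z : (ℕ × ℕ) × (ℕ × ℕ) × ℕ × ℕ => z.2.2 :=
      Computable.snd.comp Computable.snd
    have a : Computable fun z : (ℕ × ℕ) × (ℕ × ℕ) × ℕ × ℕ => z.1.1 :=
      Computable.fst.comp Computable.fst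
    have b : Computable fun z : (ℕ × ℕ) × (ℕ × ℕ) × ℕ × ℕ => z.1.2 :=
      Computable.snd.comp Computable.fst
    have c : Computable fun z : (ℕ × ℕ) × (ℕ × ℕ) × ℕ × ℕ => z.2.1.1 :=
      Computable.fst.comp (Computable.fst.comp Computable.snd)
    have d : Computable fun z : (ℕ × ℕ) × (ℕ × ℕ) × ℕ × ℕ => z.2.1.2 :=
      Computable.snd.comp (Computable.fst.comp Computable.snd)
    exact cor (ceq r (b.pair a)) (cor (cand (ceq b c) (ceq r (a.pair d)))
      (cor (ceq r ((lin a 1).pair (lin b 1))) (cor (ceq r ((lin a 2).pair (lin b 2)))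
        (ceq r ((cM a c).pair (cM b d))))))

theorem iso_pi : Sig 2 (ℕ × ℕ) fun p => ¬ Iso p.1 p.2 := by
  have a : Sig 1 ((ℕ × ℕ) × ℕ × ℕ) fun q => Cl (Ax q.1.1) Ru q.2 :=
    th_sig.comp ((Computable.fst.comp Computable.fst).pair Computable.snd)
  have b : Sig 1 ((ℕ × ℕ) × ℕ × ℕ) fun q => Cl (Ax q.1.2) Ru q.2 :=
    th_sig.comp ((Computable.snd.comp Computable.fst).pair Computable.snd)
  refine (Sig.exd ((a.succ.and b.neg_succ).or (a.neg_succ.and b.succ))).of_eq fun p => ?_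
  simp only [iso_iff, th_iff, not_forall, Prod.exists, enc_bij.2.exists]
  exact exists₂_congr fun s t => by tauto

def ev : Tm → Set ℕ
  | .x => Set.univ
  | .f s => {j ∈ ev s | ∃ i ∈ ev s, i < j}
  | .g s => {j ∈ ev s | ∀ i ∈ ev s, j ≤ i}
  | .m s t => ev s ∩ ev t

theorem ev_th {e : ℕ} (he : ∀ a, a ∉ W e) {s t : Tm} (h : Th e s t) : ev s = ev t := by
  induction h with
  | base h => exact absurd h (he _)
  | assoc => exact Set.inter_assoc _ _ _
  | comm => exact Set.inter_comm _ _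
  | idem => exact Set.inter_self _
  | fle => exact Set.inter_eq_left.2 (Set.sep_subset _ _)
  | gle => exact Set.inter_eq_left.2 (Set.sep_subset _ _)
  | refl => rfl
  | symm _ i => exact i.symm
  | trans _ _ i j => exact i.trans j
  | f _ i => simp [ev, i]
  | g _ i => simp [ev, i]
  | m _ _ i j => simp [ev, i, j]

theorem ev_it (k : ℕ) : ev (Tm.f^[k] .x) = Set.Ici k := by
  induction k with
  | zero => simp [ev]
  | succ k ih =>
    rw [Function.iterate_succ_apply', ev, ih]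
    ext j
    exact ⟨fun ⟨_, i, (a : k ≤ i), b⟩ => Nat.lt_of_le_of_lt a b,
      fun h => ⟨Nat.le_of_succ_le h, k, Nat.le_refl k, h⟩⟩

theorem result :
    (∃ (e : ℕ) (C : ℕ → Setoid (Quot (Th e))), (∀ k, IsCon e (C k)) ∧ StrictMono C) ∧
      ¬ ∀ E : ℕ → ℕ → Prop, Equivalence E → Sig 3 (ℕ × ℕ) (fun p => E p.1 p.2) → Red E Iso := by
  refine ⟨?_, fun h => ?_⟩
  swap
  · obtain ⟨E, a, b, c⟩ := not_complete iso_pi
    exact c (h E a b)
  obtain ⟨s, -, hs⟩ := w_idx (β := ℕ) (A := fun _ => 0 = 1)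
    (cs (ceq (Computable.const 0) (Computable.const 1)))
  have he : ∀ a, a ∉ W (s 0) := fun a => by simp [hs]
  let v : Quot (Th (s 0)) → Set ℕ := Quot.lift ev fun _ _ => ev_th he
  refine ⟨s 0, fun k => ⟨fun a b => v a = v b ∨ v a ⊆ Set.Iio k ∧ v b ⊆ Set.Iio k,
    fun _ => Or.inl rfl, by grind, by grind⟩, fun k s t s' t' a b => ?_,
    strictMono_nat_of_lt_succ fun k => lt_of_le_not_ge (fun a b => Or.imp id fun h =>
      ⟨h.1.trans (Set.Iio_subset_Iio k.le_succ), h.2.trans (Set.Iio_subset_Iio k.le_succ)⟩)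
      fun h => ?_⟩
  · change ev s = ev t ∨ ev s ⊆ _ ∧ ev t ⊆ _ at a
    change ev s' = ev t' ∨ ev s' ⊆ _ ∧ ev t' ⊆ _ at b
    refine ⟨a.imp (fun a => by simp [v, cl, ev, a]) fun a =>
      ⟨(Set.sep_subset _ _).trans a.1, (Set.sep_subset _ _).trans a.2⟩,
      a.imp (fun a => by simp [v, cl, ev, a]) fun a =>
      ⟨(Set.sep_subset _ _).trans a.1, (Set.sep_subset _ _).trans a.2⟩, ?_⟩
    rcases a with a | a
    · exact b.imp (fun b => by simp [v, cl, ev, a, b]) fun b =>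
        ⟨Set.inter_subset_right.trans b.1, Set.inter_subset_right.trans b.2⟩
    · exact Or.inr ⟨Set.inter_subset_left.trans a.1, Set.inter_subset_left.trans a.2⟩
  · have a : ev (.g (Tm.f^[k] .x)) = {k} := by
      rw [ev, ev_it]
      ext j
      exact ⟨fun ⟨a, b⟩ => le_antisymm (b k (Nat.le_refl k)) a, by
        rintro rfl; exact ⟨Nat.le_refl _, fun _ h => h⟩⟩
    have b : ev (.f (.g (Tm.f^[k] .x))) = ∅ := by
      rw [ev, a]
      ext j
      simp
      omega
    have := @h (cl _ (.g (Tm.f^[k] .x))) (cl _ (.f (.g (Tm.f^[k] .x))))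
      (Or.inr ⟨by simp [v, cl, a], by simp [v, cl, b]⟩)
    change ev _ = ev _ ∨ ev _ ⊆ _ ∧ _ at this
    simp [a, b] at this

end Pool.Agent.Results.MP_aec1d5_lc.Yes
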